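import Mathlib
import Pool.Agent.T9h72.KU.Spec

/-!
# The slope at a knot (half of the job KLO)
-/

set_option autoImplicit false

namespace Pool.Agent.T9h12.KU

open MeasureTheory ProbabilityTheory Set Filter Topology Pool.Agent.R190.KR Pool.Agent.T9h72.KU

variable {n m : ℕ} {β a : ℝ}

theorem S_pos_of_knot (h : KnotS n m β a) {x : ℝ} (hx : x ∈ Ioc (1 / 2 : ℝ) β) : 0 < S n m x := by
  have := h.mono ⟨le_rfl, h.mem.1.le⟩ ⟨hx.1.le, hx.2⟩ hx.1
  rwa [S_half] at this

/-- a peak, to the right of the knot -/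
theorem exists_peak_of_knot (hn : 1 ≤ n) (hm : 1 ≤ m) (h : KnotS n m β a) :
    ∃ c, Peak n m c ∧ β ≤ c := by
  obtain ⟨c, hc, h1, h2, h3, h4⟩ := exists_peak n m hn hm
    ⟨β, ⟨h.mem.1.le, h.mem.2.le⟩, S_pos_of_knot h ⟨h.mem.1, le_rfl⟩⟩
  refine ⟨c, ⟨hc, h1, h2, h3, h4⟩, ?_⟩
  by_contra hlt
  push Not at hlt
  have h5 := h.mono ⟨hc.1.le, hlt.le⟩ ⟨h.mem.1.le, le_rfl⟩ hlt
  have h6 := h2 β ⟨h.mem.1.le, h.mem.2.le⟩
  linarith

theorem deriv_S {x : ℝ} (h0 : 0 < x) (h1 : x < 1) : deriv (S n m) x = S1 n m x :=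
  (hasDerivAt_S n m h0 h1).deriv

/-- `S1` is nondecreasing on `[1/2, β]` -/
theorem S1_mono (h : KnotS n m β a) : MonotoneOn (S1 n m) (Icc (1 / 2) β) := by
  have h1 := h.conv.monotoneOn_deriv (fun x hx =>
    (hasDerivAt_S n m (by linarith [hx.1]) (by linarith [hx.2, h.mem.2])).differentiableAt)
  intro x hx y hy hxy
  have := h1 hx hy hxy
  rwa [deriv_S (by linarith [hx.1]) (by linarith [hx.2, h.mem.2]),
    deriv_S (by linarith [hy.1]) (by linarith [hy.2, h.mem.2])] at this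

/-- `S1` is positive on `(1/2, β]` -/
theorem S1_pos (h : KnotS n m β a) {x : ℝ} (hx : x ∈ Ioc (1 / 2 : ℝ) β) : 0 < S1 n m x := by
  have h1 := h.conv.slope_le_of_hasDerivAt (x := 1 / 2) (y := x) ⟨le_rfl, h.mem.1.le⟩
    ⟨hx.1.le, hx.2⟩ hx.1 (hasDerivAt_S n m (by linarith [hx.1]) (by linarith [hx.2, h.mem.2]))
  refine lt_of_lt_of_le ?_ h1
  rw [slope_def_field, S_half, sub_zero]
  exact div_pos (S_pos_of_knot h hx) (by linarith [hx.1])

/-- The derivative of `S` at the knot is at most the slope of the line. -/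
theorem slope_le (hP : S_PAT) (hPM : S_PM) (hn : 1 ≤ n) (hm : 1 ≤ m) (h : KnotS n m β a) :
    S1 n m β ≤ a := by
  by_contra hlt
  push Not at hlt
  obtain ⟨c, hc, hβc⟩ := exists_peak_of_knot hn hm h
  obtain ⟨c1, c2, h1, h2, h3, p1, p2, p3⟩ := hP n m hn hm c hc β ⟨h.mem.1.le, hβc⟩ a h.pos
  have hβ0 : 0 < β := by linarith [h.mem.1]
  have hβ1 := h.mem.2
  -- `r > 0` just after `β`
  have hd : HasDerivAt (fun x => S n m x - (S n m β + a * (x - β))) (S1 n m β - a) β := by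
    have h5 := (hasDerivAt_S n m hβ0 hβ1).sub
      (((hasDerivAt_id β).sub_const β).const_mul a |>.const_add (S n m β))
    refine h5.congr_deriv ?_
    simp
  have hc1 : c1 = β := by
    by_contra hne
    have hlt1 : β < c1 := lt_of_le_of_ne h1 (Ne.symm hne)
    have hev : ∀ᶠ x in nhdsWithin β (Ioi β), 0 < slope (fun x => S n m x - (S n m β + a * (x - β))) β x := by
      have h6 := (hasDerivAt_iff_tendsto_slope.1 hd).mono_left
        (nhdsWithin_mono β (fun x (hx : x ∈ Ioi β) => ne_of_gt hx))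
      exact h6.eventually (lt_mem_nhds (by linarith))
    have hev2 : ∀ᶠ x in nhdsWithin β (Ioi β), x ∈ Ioc β c1 := Ioc_mem_nhdsGT hlt1
    obtain ⟨x, hx1, hx2⟩ := (hev.and hev2).exists
    rw [slope_def_field] at hx1
    have h7 := p1 x ⟨hx2.1.le, hx2.2⟩
    have h8 : (S n m x - (S n m β + a * (x - β)) - (S n m β - (S n m β + a * (β - β)))) / (x - β)
        ≤ 0 := by
      apply div_nonpos_of_nonpos_of_nonneg
      · rw [sub_self, mul_zero, add_zero, sub_self, sub_zero]; linarith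
      · linarith [hx2.1]
    linarith
  have hPM' := hPM (fun x => S n m x - (S n m β + a * (x - β))) β c2 (by linarith) h3
    (by
      have h9 : ContinuousOn (S n m) (Icc β 1) :=
        (continuousOn_S n m hm).mono (Icc_subset_Icc hβ0.le le_rfl)
      exact h9.sub (by fun_prop))
    (fun x hx => by linarith [p2 x ⟨by rw [hc1]; exact hx.1, hx.2⟩])
    (fun x hx => by linarith [p3 x hx])
    (by
      have h10 := S_pos_of_knot h ⟨h.mem.1, le_rfl⟩
      have h11 : 0 < a * (1 - β) := mul_pos h.pos (by linarith)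
      show S n m 1 - (S n m β + a * (1 - β)) < 0
      rw [S_at_one n m hn hm]
      linarith)
    h.mom1
  rw [h.mom0] at hPM'
  exact lt_irrefl _ hPM'

theorem slope : S_PAT → S_PM → ∀ n m : ℕ, 1 ≤ n → 1 ≤ m → ∀ β a : ℝ, KnotS n m β a →
    S1 n m β ≤ a :=
  fun hP hPM _ _ hn hm _ _ h => slope_le hP hPM hn hm h

end Pool.Agent.T9h12.KU
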