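import Mathlib
import Pool.Agent.T9h72.KU.Spec2
import Pool.Agent.T9h12.KU.Slope

/-!
# Job CONVG: the function of a knot is convex
-/

set_option autoImplicit false

namespace Pool.Agent.T9h12.KU

open MeasureTheory ProbabilityTheory Set Filter Topology Pool.Agent.R190.KR Pool.Agent.T9h72.KU

variable {n m : ℕ} {β a : ℝ}

/-- the line lies below `S` to the left of the knot -/
theorem line_le (ha : S1 n m β ≤ a) (h : KnotS n m β a) {x : ℝ} (hx : x ∈ Icc (1 / 2 : ℝ) β) :
    S n m β - S n m x ≤ a * (β - x) := by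
  rcases eq_or_lt_of_le hx.2 with h1 | h1
  · rw [h1]; simp
  · have h2 := h.conv.slope_le_of_hasDerivAt (x := x) (y := β) hx ⟨h.mem.1.le, le_rfl⟩ h1
      (hasDerivAt_S n m (by linarith [h.mem.1]) h.mem.2)
    rw [slope_def_field, div_le_iff₀ (by linarith)] at h2
    exact h2.trans (mul_le_mul_of_nonneg_right ha (by linarith))

theorem convex_glue (ha : S1 n m β ≤ a) (h : KnotS n m β a) :
    ConvexOn ℝ (Icc (1 / 2) 1)
      (fun x => if x ≤ β then S n m x else S n m β + a * (x - β)) := by
  have hβ := h.mem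
  apply convexOn_of_slope_mono_adjacent (convex_Icc _ _)
  intro x y z hx hz hxy hyz
  rcases le_or_gt z β with hzb | hzb
  · rw [if_pos hzb, if_pos (by linarith : y ≤ β), if_pos (by linarith : x ≤ β)]
    exact h.conv.slope_mono_adjacent ⟨hx.1, by linarith⟩ ⟨hz.1, hzb⟩ hxy hyz
  rw [if_neg (not_le.2 hzb)]
  rcases le_or_gt y β with hyb | hyb
  · rw [if_pos hyb, if_pos (by linarith : x ≤ β)]
    have hx' : x ∈ Icc (1 / 2 : ℝ) β := ⟨hx.1, by linarith⟩
    have hy' : y ∈ Icc (1 / 2 : ℝ) β := ⟨by linarith [hx.1], hyb⟩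
    have h1 : (S n m y - S n m x) / (y - x) * (β - y) ≤ S n m β - S n m y := by
      rcases eq_or_lt_of_le hyb with h2 | h2
      · rw [h2]; simp
      · have h3 := h.conv.slope_mono_adjacent hx' (z := β) ⟨hβ.1.le, le_rfl⟩ hxy h2
        rwa [le_div_iff₀ (by linarith)] at h3
    have h4 : (S n m y - S n m x) / (y - x) ≤ a := by
      have h5 := h.conv.slope_le_of_hasDerivAt (x := x) (y := y) hx' hy' hxy
        (hasDerivAt_S n m (by linarith [hx.1]) (by linarith [hβ.2]))
      rw [slope_def_field] at h5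
      have h6 := S1_mono h hy' ⟨hβ.1.le, le_rfl⟩ hyb
      linarith
    have h7 := mul_le_mul_of_nonneg_right h4 (by linarith : 0 ≤ z - β)
    rw [le_div_iff₀ (by linarith)]
    have h8 : (S n m y - S n m x) / (y - x) * (z - y) =
        (S n m y - S n m x) / (y - x) * (β - y) + (S n m y - S n m x) / (y - x) * (z - β) := by
      ring
    rw [h8]
    linarith
  rw [if_neg (not_le.2 hyb)]
  have h9 : (S n m β + a * (z - β) - (S n m β + a * (y - β))) / (z - y) = a := by
    rw [div_eq_iff (by linarith)]; ring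
  rw [h9, div_le_iff₀ (by linarith)]
  rcases le_or_gt x β with hxb | hxb
  · rw [if_pos hxb]
    have := line_le ha h ⟨hx.1, hxb⟩
    nlinarith
  · rw [if_neg (not_le.2 hxb)]
    apply le_of_eq
    ring

theorem convg : S_PAT → S_PM → S_CONVG :=
  fun hP hPM _ _ hn hm _ _ h => convex_glue (slope_le hP hPM hn hm h) h

end Pool.Agent.T9h12.KU
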